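import Pool.Agent.W780.SN.Stm

namespace Pool.Agent.W174.SN

open MeasureTheory Set Filter Topology Metric
open scoped ENNReal InnerProductSpace ContDiff
open Pool.Agent.W780.SN

theorem inner_grad {n : ℕ} (F : EuclideanSpace ℝ (Fin n) → ℝ) (x w : EuclideanSpace ℝ (Fin n)) :
    ⟪gradient F x, w⟫_ℝ = fderiv ℝ F x w := by
  simp [gradient]

theorem fderiv_sum {n : ℕ} (L : EuclideanSpace ℝ (Fin n) →L[ℝ] ℝ) (w : EuclideanSpace ℝ (Fin n)) :
    L w = ∑ i, w i * L (EuclideanSpace.single i 1) := by
  have h : w = ∑ i, w i • (EuclideanSpace.single i (1:ℝ)) := by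
    have := (EuclideanSpace.basisFun (Fin n) ℝ).sum_repr w
    simpa using this.symm
  conv_lhs => rw [h]
  simp [map_sum]

theorem euler : S_Euler := by
  intro n y0 F hF hc
  have hFc := hF.continuous
  have hdc : Continuous (fun x => fderiv ℝ F x) := hF.continuous_fderiv one_ne_zero
  have hcs : HasCompactSupport (fderiv ℝ F) := hc.fderiv (𝕜 := ℝ)
  have hFi : Integrable F := hFc.integrable_of_hasCompactSupport hc
  have hg : ∀ x, ⟪gradient F x, x - y0⟫_ℝ =
      ∑ i, (x - y0) i * fderiv ℝ F x (EuclideanSpace.single i 1) := by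
    intro x
    rw [inner_grad, fderiv_sum]
  have hci : ∀ i : Fin n, Continuous (fun x : EuclideanSpace ℝ (Fin n) => (x - y0) i) := by
    intro i; fun_prop
  have hdi : ∀ i : Fin n, HasCompactSupport (fun x => fderiv ℝ F x (EuclideanSpace.single i 1)) := by
    intro i
    exact hcs.comp_left (g := fun L : EuclideanSpace ℝ (Fin n) →L[ℝ] ℝ =>
      L (EuclideanSpace.single i 1)) (by simp)
  have hdci : ∀ i : Fin n, Continuous (fun x => fderiv ℝ F x (EuclideanSpace.single i 1)) :=
    fun i => hdc.clm_apply continuous_const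
  have hint : ∀ i : Fin n,
      Integrable (fun x => (x - y0) i * fderiv ℝ F x (EuclideanSpace.single i 1)) := fun i =>
    ((hci i).mul (hdci i)).integrable_of_hasCompactSupport ((hdi i).mul_left)
  have hfd : ∀ (i : Fin n) (x : EuclideanSpace ℝ (Fin n)),
      HasFDerivAt (fun x : EuclideanSpace ℝ (Fin n) => (x - y0) i)
        (EuclideanSpace.proj i : EuclideanSpace ℝ (Fin n) →L[ℝ] ℝ) x := by
    intro i x
    exact (EuclideanSpace.proj i : EuclideanSpace ℝ (Fin n) →L[ℝ] ℝ).hasFDerivAt.comp x
      ((hasFDerivAt_id x).sub_const y0)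
  have hip : ∀ i : Fin n,
      ∫ x, (x - y0) i * fderiv ℝ F x (EuclideanSpace.single i 1) = - ∫ x, F x := by
    intro i
    have := integral_mul_fderiv_eq_neg_fderiv_mul_of_integrable (μ := volume)
      (f := fun x : EuclideanSpace ℝ (Fin n) => (x - y0) i) (g := F)
      (v := EuclideanSpace.single i (1:ℝ)) ?_ (hint i) ?_ ?_ ?_
    · rw [this]
      congr 1
      apply integral_congr_ae
      filter_upwards with x
      rw [(hfd i x).fderiv]
      simp
    · have : (fun x => fderiv ℝ (fun x : EuclideanSpace ℝ (Fin n) => (x - y0) i) x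
        (EuclideanSpace.single i (1:ℝ)) * F x) = F := by
        funext x
        rw [(hfd i x).fderiv]
        simp
      rw [this]; exact hFi
    · exact ((hci i).mul hFc).integrable_of_hasCompactSupport hc.mul_left
    · intro x _; exact (hfd i x).differentiableAt
    · intro x _; exact (hF.differentiable one_ne_zero) x
  have h1 : Integrable (fun x => ⟪gradient F x, x - y0⟫_ℝ) := by
    simp_rw [hg]
    exact integrable_finsetSum _ (fun i _ => hint i)
  rw [integral_add h1 (hFi.const_mul _)]
  simp_rw [hg]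
  rw [integral_finset_sum _ (fun i _ => hint i)]
  simp_rw [hip]
  rw [integral_const_mul]
  simp

end Pool.Agent.W174.SN
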