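import Pool.Agent.W174.SN.Rellich

namespace Pool.Agent.W174.SN

open MeasureTheory Set Filter Topology Metric
open scoped ENNReal InnerProductSpace ContDiff
open Pool.Agent.W780.SN

section abstract

variable {H₁ H₂ : Type*} [NormedAddCommGroup H₁] [InnerProductSpace ℝ H₁] [CompleteSpace H₁]
  [NormedAddCommGroup H₂] [InnerProductSpace ℝ H₂] [CompleteSpace H₂]

theorem minimiser (P : H₁ → H₂ → Prop)
    (hadd : ∀ a b c d, P a b → P c d → P (a + c) (b + d))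
    (hsmul : ∀ (t : ℝ) a b, P a b → P (t • a) (t • b)) {L : ℝ} (hL : 0 ≤ L)
    (hP : ∀ a b, P a b → L * ‖a‖ ^ 2 ≤ ‖b‖ ^ 2)
    (a : ℕ → H₁) (b : ℕ → H₂) (hab : ∀ k, P (a k) (b k)) (ha1 : ∀ k, ‖a k‖ = 1)
    (hbL : Tendsto (fun k => ‖b k‖ ^ 2) atTop (𝓝 L)) (hac : CauchySeq a) :
    ∃ (a' : H₁) (b' : H₂), Tendsto a atTop (𝓝 a') ∧ Tendsto b atTop (𝓝 b') ∧ ‖a'‖ = 1 ∧
      ∀ c d, P c d → ⟪b', d⟫_ℝ = L * ⟪a', c⟫_ℝ := by
  have hbc : CauchySeq b := by
    rw [Metric.cauchySeq_iff]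
    intro ε hε
    have e1 : ∀ᶠ k in atTop, ‖b k‖ ^ 2 < L + ε ^ 2 / 8 :=
      hbL.eventually (gt_mem_nhds (by have : 0 < ε ^ 2 / 8 := by positivity
                                      linarith))
    obtain ⟨N1, hN1⟩ := eventually_atTop.1 e1
    let δ : ℝ := Real.sqrt (ε ^ 2 / (2 * (L + 1)))
    have hδ : 0 < δ := by simp only [δ]; positivity
    have hδ2 : δ ^ 2 = ε ^ 2 / (2 * (L + 1)) := Real.sq_sqrt (by positivity)
    obtain ⟨N2, hN2⟩ := Metric.cauchySeq_iff.1 hac δ hδ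
    refine ⟨max N1 N2, fun j hj k hk => ?_⟩
    have h1 := hN1 j ((le_max_left _ _).trans hj)
    have h2 := hN1 k ((le_max_left _ _).trans hk)
    have h3 := hN2 j ((le_max_right _ _).trans hj) k ((le_max_right _ _).trans hk)
    rw [dist_eq_norm] at h3 ⊢
    have p1 := parallelogram_law_with_norm ℝ (b j) (b k)
    have p2 := parallelogram_law_with_norm ℝ (a j) (a k)
    have h4 := hP _ _ (hadd _ _ _ _ (hab j) (hab k))
    rw [ha1, ha1] at p2
    have h5 : ‖a j - a k‖ ^ 2 < δ ^ 2 := by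
      have := norm_nonneg (a j - a k)
      nlinarith
    have h6 : L * ‖a j - a k‖ ^ 2 ≤ ε ^ 2 / 2 := by
      have : L * ‖a j - a k‖ ^ 2 ≤ L * δ ^ 2 := mul_le_mul_of_nonneg_left h5.le hL
      rw [hδ2] at this
      have h7 : L * (ε ^ 2 / (2 * (L + 1))) = ε ^ 2 / 2 * (L / (L + 1)) := by field_simp
      have h8 : L / (L + 1) ≤ 1 := by rw [div_le_one (by positivity)]; linarith
      have h9 : 0 ≤ ε ^ 2 / 2 := by positivity
      nlinarith
    have h7 : ‖b j - b k‖ ^ 2 < ε ^ 2 := by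
      have q1 : ‖a j + a k‖ ^ 2 = 4 - ‖a j - a k‖ ^ 2 := by nlinarith
      rw [q1] at h4
      nlinarith
    exact lt_of_pow_lt_pow_left₀ 2 hε.le h7
  obtain ⟨a', ha'⟩ := cauchySeq_tendsto_of_complete hac
  obtain ⟨b', hb'⟩ := cauchySeq_tendsto_of_complete hbc
  have hn1 : ‖a'‖ = 1 := by
    have h1 := ha'.norm
    simp_rw [ha1] at h1
    exact (tendsto_nhds_unique h1 tendsto_const_nhds)
  have hn2 : ‖b'‖ ^ 2 = L := tendsto_nhds_unique (hb'.norm.pow 2) hbL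
  refine ⟨a', b', ha', hb', hn1, fun c d hcd => ?_⟩
  have hlim : ∀ t : ℝ, L * ‖a' + t • c‖ ^ 2 ≤ ‖b' + t • d‖ ^ 2 := by
    intro t
    have h1 : Tendsto (fun k => L * ‖a k + t • c‖ ^ 2) atTop (𝓝 (L * ‖a' + t • c‖ ^ 2)) :=
      (((ha'.add_const (t • c)).norm).pow 2).const_mul L
    have h2 : Tendsto (fun k => ‖b k + t • d‖ ^ 2) atTop (𝓝 (‖b' + t • d‖ ^ 2)) :=
      ((hb'.add_const (t • d)).norm).pow 2
    exact le_of_tendsto_of_tendsto' h1 h2 (fun k => hP _ _ (hadd _ _ _ _ (hab k) (hsmul t _ _ hcd)))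
  set X := ⟪b', d⟫_ℝ - L * ⟪a', c⟫_ℝ with hX
  set Y := ‖d‖ ^ 2 - L * ‖c‖ ^ 2 with hY
  have hY0 : 0 ≤ Y := sub_nonneg.2 (hP _ _ hcd)
  have hq : ∀ t : ℝ, 0 ≤ 2 * t * X + t ^ 2 * Y := by
    intro t
    have h1 := hlim t
    rw [norm_add_sq_real, norm_add_sq_real, inner_smul_right, inner_smul_right, norm_smul, norm_smul,
      hn1, hn2, mul_pow, mul_pow, Real.norm_eq_abs, sq_abs] at h1
    rw [hX, hY]
    nlinarith
  have hX0 : X = 0 := by
    by_contra hne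
    have hX2 : 0 < X ^ 2 := by positivity
    have h1 := hq (-X / (Y + 1))
    have h2 : 2 * (-X / (Y + 1)) * X + (-X / (Y + 1)) ^ 2 * Y = - (X ^ 2 * (Y + 2) / (Y + 1) ^ 2) := by
      field_simp
      ring
    rw [h2] at h1
    have : 0 < X ^ 2 * (Y + 2) / (Y + 1) ^ 2 := by positivity
    linarith
  linarith

end abstract

variable {n : ℕ}

theorem memU {Ω : Set (EuclideanSpace ℝ (Fin n))} {φ : (EuclideanSpace ℝ (Fin n)) → ℝ} (hφ : IsTest Ω φ) : MemLp φ 2 (volume.restrict Ω) :=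
  (hφ.smooth.continuous.memLp_of_hasCompactSupport hφ.compact).restrict Ω

theorem memG {Ω : Set (EuclideanSpace ℝ (Fin n))} {φ : (EuclideanSpace ℝ (Fin n)) → ℝ} (hφ : IsTest Ω φ) :
    MemLp (gradient φ) 2 (volume.restrict Ω) :=
  ((grad_continuous hφ.smooth).memLp_of_hasCompactSupport (grad_compact hφ.compact)).restrict Ω

theorem test_add {φ χ : (EuclideanSpace ℝ (Fin n)) → ℝ} {Ω : Set (EuclideanSpace ℝ (Fin n))} (hφ : IsTest Ω φ) (hχ : IsTest Ω χ) :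
    IsTest Ω (φ + χ) :=
  ⟨hφ.smooth.add hχ.smooth, hφ.compact.add hχ.compact,
    (tsupport_add φ χ).trans (union_subset hφ.supp hχ.supp)⟩

theorem test_smul {φ : (EuclideanSpace ℝ (Fin n)) → ℝ} {Ω : Set (EuclideanSpace ℝ (Fin n))} (t : ℝ) (hφ : IsTest Ω φ) :
    IsTest Ω (t • φ) := by
  refine ⟨hφ.smooth.const_smul t, hφ.compact.smul_left (f := fun _ => t), ?_⟩
  refine (closure_mono ?_).trans hφ.supp
  intro x hx
  rw [Function.mem_support] at hx ⊢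
  intro h; apply hx; simp [h]

theorem grad_add {φ χ : (EuclideanSpace ℝ (Fin n)) → ℝ} {Ω : Set (EuclideanSpace ℝ (Fin n))} (hφ : IsTest Ω φ) (hχ : IsTest Ω χ) :
    gradient (φ + χ) = gradient φ + gradient χ := by
  funext x
  unfold gradient
  rw [fderiv_add (hφ.smooth.differentiable (by simp) x) (hχ.smooth.differentiable (by simp) x),
    map_add]
  rfl

theorem grad_smul {φ : (EuclideanSpace ℝ (Fin n)) → ℝ} {Ω : Set (EuclideanSpace ℝ (Fin n))} (t : ℝ) (hφ : IsTest Ω φ) :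
    gradient (t • φ) = t • gradient φ := by
  funext x
  unfold gradient
  rw [fderiv_const_smul (hφ.smooth.differentiable (by simp) x), map_smul]
  rfl

/-- pairs of classes of a test function and its gradient -/
def Pair (Ω : Set (EuclideanSpace ℝ (Fin n))) (a : Lp ℝ 2 (volume.restrict Ω)) (b : Lp (EuclideanSpace ℝ (Fin n)) 2 (volume.restrict Ω)) : Prop :=
  ∃ (φ : (EuclideanSpace ℝ (Fin n)) → ℝ) (hφ : IsTest Ω φ), a = (memU hφ).toLp φ ∧ b = (memG hφ).toLp (gradient φ)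

theorem pair_add {Ω : Set (EuclideanSpace ℝ (Fin n))} {a c : Lp ℝ 2 (volume.restrict Ω)} {b d : Lp (EuclideanSpace ℝ (Fin n)) 2 (volume.restrict Ω)}
    (h : Pair Ω a b) (h' : Pair Ω c d) : Pair Ω (a + c) (b + d) := by
  obtain ⟨φ, hφ, rfl, rfl⟩ := h
  obtain ⟨χ, hχ, rfl, rfl⟩ := h'
  refine ⟨φ + χ, test_add hφ hχ, (MemLp.toLp_add _ _).symm, ?_⟩
  rw [← MemLp.toLp_add]
  exact MemLp.toLp_congr _ _ (by rw [grad_add hφ hχ])

theorem pair_smul {Ω : Set (EuclideanSpace ℝ (Fin n))} (t : ℝ) {a : Lp ℝ 2 (volume.restrict Ω)}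
    {b : Lp (EuclideanSpace ℝ (Fin n)) 2 (volume.restrict Ω)} (h : Pair Ω a b) : Pair Ω (t • a) (t • b) := by
  obtain ⟨φ, hφ, rfl, rfl⟩ := h
  refine ⟨t • φ, test_smul t hφ, (MemLp.toLp_const_smul _ _).symm, ?_⟩
  rw [← MemLp.toLp_const_smul]
  exact MemLp.toLp_congr _ _ (by rw [grad_smul t hφ])

theorem int_U {Ω : Set (EuclideanSpace ℝ (Fin n))} {φ : (EuclideanSpace ℝ (Fin n)) → ℝ} (hφ : IsTest Ω φ) :
    ∫ x, φ x ^ 2 = ‖(memU hφ).toLp φ‖ ^ 2 := by
  rw [← real_inner_self_eq_norm_sq, L2.inner_def,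
    ← setIntegral_eq_integral_of_forall_compl_eq_zero (s := Ω)
      (fun x hx => by rw [test_zero hφ hx]; simp)]
  refine integral_congr_ae ?_
  filter_upwards [(memU hφ).coeFn_toLp] with x hx
  rw [hx, real_inner_self_eq_norm_sq, Real.norm_eq_abs, sq_abs]

theorem int_G {Ω : Set (EuclideanSpace ℝ (Fin n))} {φ : (EuclideanSpace ℝ (Fin n)) → ℝ} (hφ : IsTest Ω φ) :
    ∫ x, ‖gradient φ x‖ ^ 2 = ‖(memG hφ).toLp (gradient φ)‖ ^ 2 := by
  rw [← real_inner_self_eq_norm_sq, L2.inner_def,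
    ← setIntegral_eq_integral_of_forall_compl_eq_zero (s := Ω) (fun x hx => by
      have : gradient φ x = 0 := by
        have h1 : x ∉ tsupport φ := fun h => hx (hφ.supp h)
        have h2 : fderiv ℝ φ x = 0 := by
          have := tsupport_fderiv_subset ℝ (f := φ)
          exact image_eq_zero_of_notMem_tsupport (fun h => h1 (this h))
        unfold gradient; rw [h2]; simp
      rw [this]; simp)]
  refine integral_congr_ae ?_
  filter_upwards [(memG hφ).coeFn_toLp] with x hx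
  rw [hx, real_inner_self_eq_norm_sq]

theorem first : S_First := by
  intro n hn Ω hΩ hΩb lam u hu hmin v hv
  by_cases hQ : ∃ w, IsTest Ω w ∧ ∫ x, w x ^ 2 = 1
  swap
  · -- every test function vanishes
    have h0 : ∫ x, v x ^ 2 = 0 := by
      by_contra hne
      have hpos : 0 < ∫ x, v x ^ 2 :=
        lt_of_le_of_ne (integral_nonneg fun x => sq_nonneg _) (Ne.symm hne)
      apply hQ
      refine ⟨(Real.sqrt (∫ x, v x ^ 2))⁻¹ • v, test_smul _ hv, ?_⟩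
      have : ∀ x, ((Real.sqrt (∫ x, v x ^ 2))⁻¹ • v) x ^ 2 = (∫ x, v x ^ 2)⁻¹ * v x ^ 2 := by
        intro x
        rw [Pi.smul_apply, smul_eq_mul, mul_pow, inv_pow, Real.sq_sqrt hpos.le]
      simp_rw [this]
      rw [integral_const_mul, inv_mul_cancel₀ hne]
    rw [h0, mul_zero]
    exact integral_nonneg fun x => sq_nonneg _
  let Q : Set ℝ := {q | ∃ w, IsTest Ω w ∧ ∫ x, w x ^ 2 = 1 ∧ q = ∫ x, ‖gradient w x‖ ^ 2}
  have hQne : Q.Nonempty := by
    obtain ⟨w, hw, hw1⟩ := hQ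
    exact ⟨_, w, hw, hw1, rfl⟩
  have hQb : BddBelow Q := ⟨0, by rintro q ⟨w, -, -, rfl⟩; exact integral_nonneg fun x => sq_nonneg _⟩
  set L := sInf Q with hLdef
  have hL0 : 0 ≤ L := le_csInf hQne (by
    rintro q ⟨w, -, -, rfl⟩; exact integral_nonneg fun x => sq_nonneg _)
  have hP : ∀ a b, Pair Ω a b → L * ‖a‖ ^ 2 ≤ ‖b‖ ^ 2 := by
    intro a b hab
    by_cases ha : ‖a‖ = 0
    · rw [ha]; simp
    · have hab' := pair_smul (‖a‖⁻¹) hab
      obtain ⟨w, hw, e1, e2⟩ := hab'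
      have h1 : ∫ x, w x ^ 2 = 1 := by
        rw [int_U hw, ← e1, norm_smul, norm_inv, norm_norm, inv_mul_cancel₀ ha, one_pow]
      have h2 : L ≤ ∫ x, ‖gradient w x‖ ^ 2 := csInf_le hQb ⟨w, hw, h1, rfl⟩
      rw [int_G hw, ← e2, norm_smul, norm_inv, norm_norm, mul_pow, inv_pow] at h2
      have h3 : 0 < ‖a‖ ^ 2 := by positivity
      calc L * ‖a‖ ^ 2 ≤ ((‖a‖ ^ 2)⁻¹ * ‖b‖ ^ 2) * ‖a‖ ^ 2 := mul_le_mul_of_nonneg_right h2 h3.le
        _ = ‖b‖ ^ 2 := by field_simp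
  have hPv := hP _ _ ⟨v, hv, rfl, rfl⟩
  rw [← int_U hv, ← int_G hv] at hPv
  -- minimising sequence
  have hex : ∀ k : ℕ, ∃ w, IsTest Ω w ∧ ∫ x, w x ^ 2 = 1 ∧
      ∫ x, ‖gradient w x‖ ^ 2 < L + 1 / ((k : ℝ) + 1) := by
    intro k
    have : sInf Q < L + 1 / ((k : ℝ) + 1) := by
      have : (0:ℝ) < 1 / ((k : ℝ) + 1) := by positivity
      linarith
    obtain ⟨q, ⟨w, hw, h1, rfl⟩, hq⟩ := exists_lt_of_csInf_lt hQne this
    exact ⟨w, hw, h1, hq⟩
  choose φ hφ hφ1 hφL using hex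
  obtain ⟨σ, hσ, hC⟩ := rellich n hn Ω hΩb (L + 2) φ hφ
    (fun k => by rw [hφ1 k]; linarith) (fun k => by
      have h1 := hφL k
      have h2 : 1 / ((k : ℝ) + 1) ≤ 1 := by
        rw [div_le_one (by positivity)]
        have : (0:ℝ) ≤ k := Nat.cast_nonneg k
        linarith
      linarith)
  let a : ℕ → Lp ℝ 2 (volume.restrict Ω) := fun k => (memU (hφ (σ k))).toLp (φ (σ k))
  let b : ℕ → Lp (EuclideanSpace ℝ (Fin n)) 2 (volume.restrict Ω) :=
    fun k => (memG (hφ (σ k))).toLp (gradient (φ (σ k)))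
  have hab : ∀ k, Pair Ω (a k) (b k) := fun k => ⟨_, hφ (σ k), rfl, rfl⟩
  have ha1 : ∀ k, ‖a k‖ = 1 := by
    intro k
    have h1 := int_U (hφ (σ k))
    rw [hφ1] at h1
    have h2 : ‖a k‖ ^ 2 = 1 := h1.symm
    nlinarith [norm_nonneg (a k)]
  have hbL : Tendsto (fun k => ‖b k‖ ^ 2) atTop (𝓝 L) := by
    have h1 : ∀ k, ‖b k‖ ^ 2 = ∫ x, ‖gradient (φ (σ k)) x‖ ^ 2 := fun k => (int_G (hφ (σ k))).symm
    have h2 : Tendsto (fun k : ℕ => L + 1 / ((σ k : ℝ) + 1)) atTop (𝓝 L) := by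
      have := (tendsto_one_div_add_atTop_nhds_zero_nat (𝕜 := ℝ)).comp hσ.tendsto_atTop
      simpa using this.const_add L
    refine tendsto_of_tendsto_of_tendsto_of_le_of_le tendsto_const_nhds h2 (fun k => ?_) (fun k => ?_)
    · show L ≤ ‖b k‖ ^ 2
      rw [h1]; exact csInf_le hQb ⟨_, hφ (σ k), hφ1 _, rfl⟩
    · show ‖b k‖ ^ 2 ≤ L + 1 / ((σ k : ℝ) + 1)
      rw [h1]; exact (hφL _).le
  have hac : CauchySeq a := by
    rw [Metric.cauchySeq_iff]
    intro ε hε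
    obtain ⟨N, hN⟩ := hC (ε ^ 2 / 2) (by positivity)
    refine ⟨N, fun j hj k hk => ?_⟩
    have h1 := hN j hj k hk
    rw [dist_eq_norm]
    have hsub : Pair Ω (a j + (-1 : ℝ) • a k) (b j + (-1 : ℝ) • b k) :=
      pair_add (hab j) (pair_smul _ (hab k))
    have hT : IsTest Ω (φ (σ j) + (-1 : ℝ) • φ (σ k)) := test_add (hφ _) (test_smul _ (hφ _))
    have h2 : a j - a k = (memU hT).toLp (φ (σ j) + (-1 : ℝ) • φ (σ k)) := by
      rw [MemLp.toLp_add (memU (hφ (σ j))) (memU (test_smul (-1) (hφ (σ k)))),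
        MemLp.toLp_const_smul (-1 : ℝ) (memU (hφ (σ k))), sub_eq_add_neg, neg_one_smul]
    have h3 : ‖a j - a k‖ ^ 2 = ∫ x, (φ (σ j) x - φ (σ k) x) ^ 2 := by
      rw [h2, ← int_U hT]
      congr 1; funext x
      simp only [Pi.add_apply, Pi.smul_apply, smul_eq_mul]
      ring
    have h4 : ‖a j - a k‖ ^ 2 < ε ^ 2 := by
      rw [h3]
      have : 0 < ε ^ 2 := by positivity
      linarith
    exact lt_of_pow_lt_pow_left₀ 2 hε.le h4
  obtain ⟨a', b', hta, htb, hna, hweak⟩ := minimiser (Pair Ω) (fun _ _ _ _ => pair_add)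
    (fun t _ _ => pair_smul t) hL0 hP a b hab ha1 hbL hac
  have heig : IsEigenfunction Ω L a' := by
    refine ⟨b', ⟨Lp.memLp a', Lp.memLp b', fun k => φ (σ k), fun k => hφ _, ?_, ?_⟩, ?_, ?_⟩
    · have := (Lp.tendsto_Lp_iff_tendsto_eLpNorm' a a').1 hta
      refine this.congr fun k => ?_
      apply eLpNorm_congr_ae
      filter_upwards [(memU (hφ (σ k))).coeFn_toLp] with x hx
      simp only [Pi.sub_apply, a, hx]
    · have := (Lp.tendsto_Lp_iff_tendsto_eLpNorm' b b').1 htb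
      refine this.congr fun k => ?_
      apply eLpNorm_congr_ae
      filter_upwards [(memG (hφ (σ k))).coeFn_toLp] with x hx
      simp only [Pi.sub_apply, b, hx]
    · intro χ hχ
      have h1 := hweak _ _ ⟨χ, hχ, rfl, rfl⟩
      rw [L2.inner_def, L2.inner_def] at h1
      have e1 : ∫ x in Ω, ⟪b' x, gradient χ x⟫_ℝ =
          ∫ x in Ω, ⟪b' x, ((memG hχ).toLp (gradient χ)) x⟫_ℝ := by
        refine integral_congr_ae ?_
        filter_upwards [(memG hχ).coeFn_toLp] with x hx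
        rw [hx]
      have e2 : ∫ x in Ω, a' x * χ x = ∫ x in Ω, ⟪a' x, ((memU hχ).toLp χ) x⟫_ℝ := by
        refine integral_congr_ae ?_
        filter_upwards [(memU hχ).coeFn_toLp] with x hx
        rw [hx]
        simp [mul_comm]
      rw [e1, e2]
      exact h1
    · intro h
      have h1 : a' = 0 := (Lp.eq_zero_iff_ae_eq_zero).2 h
      rw [h1, norm_zero] at hna
      exact zero_ne_one hna
  have hle := hmin L a' heig
  have hv0 : 0 ≤ ∫ x, v x ^ 2 := integral_nonneg fun x => sq_nonneg _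
  exact (mul_le_mul_of_nonneg_right hle hv0).trans hPv

end Pool.Agent.W174.SN
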