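import Pool.Agent.W780.SN.Stm

namespace Pool.Agent.W174.SN

open MeasureTheory Set Filter Topology Metric
open scoped ENNReal InnerProductSpace ContDiff
open Pool.Agent.W780.SN

theorem lamUpper : S_LamUpper := by
  intro n
  let E := EuclideanSpace ℝ (Fin n)
  let b : ContDiffBump (0 : E) := ⟨1/4, 1/2, by norm_num, by norm_num⟩
  let ψ : E → ℝ := b
  have hψs : ContDiff ℝ ∞ ψ := b.contDiff
  have hψc : HasCompactSupport ψ := b.hasCompactSupport
  have hψt : tsupport ψ = closedBall 0 (1/2) := b.tsupport_eq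
  have hψ0 : ψ 0 = 1 := b.one_of_mem_closedBall (by simp [b])
  set A : ℝ := ∫ x, ψ x ^ 2 with hA
  set B : ℝ := ∫ x, ‖gradient ψ x‖ ^ 2 with hB
  have hApos : 0 < A := by
    refine Continuous.integral_pos_of_hasCompactSupport_nonneg_nonzero (x := (0:E))
      (hψs.continuous.pow 2) ?_ (fun x => sq_nonneg _) (by rw [hψ0]; norm_num)
    exact hψc.comp_left (g := fun t : ℝ => t ^ 2) (by simp)
  have hB0 : 0 ≤ B := integral_nonneg (fun x => sq_nonneg _)
  refine ⟨B / A + 1, by positivity, ?_⟩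
  intro Ω lam hR x r hr hball
  let h : E → E := fun y => r⁻¹ • (y - x)
  have hhc : Continuous h := by fun_prop
  let v : E → ℝ := fun y => ψ (h y)
  have hts : tsupport v ⊆ closedBall x (r / 2) := by
    intro y hy
    have h1 : h y ∈ tsupport ψ := tsupport_comp_subset_preimage ψ hhc hy
    rw [hψt, mem_closedBall, dist_zero_right] at h1
    rw [mem_closedBall, dist_eq_norm]
    have : ‖h y‖ = r⁻¹ * ‖y - x‖ := by
      simp only [h]; rw [norm_smul, Real.norm_of_nonneg (by positivity)]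
    rw [this] at h1
    have h2 : r * (r⁻¹ * ‖y - x‖) ≤ r * (1/2) := by gcongr
    rw [← mul_assoc, mul_inv_cancel₀ hr.ne', one_mul] at h2
    linarith
  have hv : IsTest Ω v := by
    refine ⟨?_, ?_, ?_⟩
    · exact hψs.comp (by fun_prop)
    · exact HasCompactSupport.of_support_subset_isCompact (isCompact_closedBall x (r/2))
        ((subset_tsupport v).trans hts)
    · exact hts.trans ((closedBall_subset_ball (by linarith)).trans hball)
  have hmain := hR v hv
  have hgr : ∀ y, gradient v y = r⁻¹ • gradient ψ (h y) := by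
    intro y
    have hψd : HasFDerivAt ψ (fderiv ℝ ψ (h y)) (h y) :=
      (hψs.differentiable (by simp) (h y)).hasFDerivAt
    have hh : HasFDerivAt h (r⁻¹ • ContinuousLinearMap.id ℝ E) y :=
      ((hasFDerivAt_id y).sub_const x).const_smul r⁻¹
    have h1 : HasFDerivAt v ((fderiv ℝ ψ (h y)).comp (r⁻¹ • ContinuousLinearMap.id ℝ E)) y :=
      hψd.comp y hh
    have h2 : fderiv ℝ v y = r⁻¹ • fderiv ℝ ψ (h y) := by
      rw [h1.fderiv]
      ext w
      simp
    unfold gradient
    rw [h2]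
    simp
  have e1 : ∫ y, v y ^ 2 = r ^ n * A := by
    have t1 : ∫ y, v y ^ 2 = ∫ y, (fun w => ψ (r⁻¹ • w) ^ 2) (y - x) := rfl
    rw [t1, integral_sub_right_eq_self (fun w => ψ (r⁻¹ • w) ^ 2) x,
      Measure.integral_comp_inv_smul_of_nonneg (μ := (volume : Measure E))
        (fun w => ψ w ^ 2) hr.le]
    simp [hA, E]
  have e2 : ∫ y, ‖gradient v y‖ ^ 2 = r⁻¹ ^ 2 * (r ^ n * B) := by
    have t1 : ∫ y, ‖gradient v y‖ ^ 2 =
        ∫ y, (fun w => r⁻¹ ^ 2 * ‖gradient ψ (r⁻¹ • w)‖ ^ 2) (y - x) := by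
      congr 1; funext y
      rw [hgr, norm_smul, Real.norm_of_nonneg (by positivity), mul_pow]
    rw [t1, integral_sub_right_eq_self (fun w => r⁻¹ ^ 2 * ‖gradient ψ (r⁻¹ • w)‖ ^ 2) x,
      integral_const_mul, Measure.integral_comp_inv_smul_of_nonneg (μ := (volume : Measure E))
        (fun w => ‖gradient ψ w‖ ^ 2) hr.le]
    simp [hB, E]
  rw [e1, e2] at hmain
  have hrn : 0 < r ^ n := by positivity
  have h3 : lam * A ≤ r⁻¹ ^ 2 * B := by
    have : r ^ n * (lam * A) ≤ r ^ n * (r⁻¹ ^ 2 * B) := by nlinarith [hmain]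
    exact le_of_mul_le_mul_left this hrn
  have h4 : lam ≤ r⁻¹ ^ 2 * B / A := by rw [le_div_iff₀ hApos]; exact h3
  refine h4.trans ?_
  have : r⁻¹ ^ 2 * B / A = (B / A) / r ^ 2 := by field_simp
  rw [this]
  gcongr
  linarith

end Pool.Agent.W174.SN
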