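import Pool.Agent.W780.SN.Stm

namespace Pool.Agent.W174.SN

open MeasureTheory Set Filter Topology Metric
open scoped ENNReal InnerProductSpace ContDiff
open Pool.Agent.W780.SN

theorem polar : S_Polar := by
  intro n hn F hF
  let E := EuclideanSpace ℝ (Fin n)
  have hdim : Module.finrank ℝ E = n := by simp [E]
  haveI : Nontrivial E := Module.nontrivial_of_finrank_pos (R := ℝ) (by rw [hdim]; exact hn)
  let μ : Measure E := volume
  let g : sphere (0 : E) 1 × Ioi (0 : ℝ) → ℝ := fun p => F (p.2.1 • p.1.1)
  have hmp := μ.measurePreserving_homeomorphUnitSphereProd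
  rw [hdim] at hmp
  have hgF : ∀ x : ({0}ᶜ : Set E), g (homeomorphUnitSphereProd E x) = F x.1 := by
    intro x
    have h1 := congrArg Subtype.val ((homeomorphUnitSphereProd E).symm_apply_apply x)
    rw [homeomorphUnitSphereProd_symm_apply_coe] at h1
    show F _ = F _
    exact congrArg F h1
  have hgF' : g ∘ (homeomorphUnitSphereProd E) = F ∘ Subtype.val := funext hgF
  have hint : Integrable g (μ.toSphere.prod (Measure.volumeIoiPow (n - 1))) := by
    rw [← hmp.integrable_comp_emb (Homeomorph.measurableEmbedding _), hgF',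
      ← integrableOn_iff_comap_subtypeVal (measurableSet_singleton _).compl]
    exact hF.integrableOn
  have hval : ∫ x, F x = ∫ p, g p ∂(μ.toSphere.prod (Measure.volumeIoiPow (n - 1))) := by
    rw [← hmp.integral_comp (Homeomorph.measurableEmbedding _)]
    simp_rw [hgF]
    rw [integral_subtype_comap (measurableSet_singleton _).compl F, restrict_compl_singleton]
  let h : Ioi (0:ℝ) → ℝ := fun t => ∫ θ, g (θ, t) ∂μ.toSphere
  let H : ℝ → ℝ := fun t => ∫ θ : sphere (0 : E) 1, F (t • (θ : E)) ∂μ.toSphere
  have hh : ∀ t : Ioi (0:ℝ), h t = H t.1 := fun t => rfl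
  have hint2 : Integrable h (Measure.volumeIoiPow (n - 1)) := hint.integral_prod_right
  have hval2 : ∫ x, F x = ∫ t, h t ∂(Measure.volumeIoiPow (n - 1)) := by
    rw [hval, integral_prod_symm _ hint]
  constructor
  · rw [integrableOn_iff_comap_subtypeVal measurableSet_Ioi]
    rw [Measure.volumeIoiPow, integrable_withDensity_iff_integrable_smul' (by fun_prop)
      (by simp)] at hint2
    refine hint2.congr (Eventually.of_forall ?_)
    rintro ⟨x, hx : 0 < x⟩
    simp only [Function.comp_def, smul_eq_mul]
    rw [ENNReal.toReal_ofReal (by positivity)]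
  · rw [hval2, Measure.volumeIoiPow]
    have hm : Measurable (fun r : Ioi (0:ℝ) => Real.toNNReal (r.1 ^ (n - 1))) :=
      (measurable_subtype_coe.pow_const _).real_toNNReal
    have := integral_withDensity_eq_integral_smul (μ := Measure.comap Subtype.val volume) hm h
    simp only [ENNReal.ofReal]
    rw [this]
    have e : ∀ a : Ioi (0:ℝ), Real.toNNReal (a.1 ^ (n - 1)) • h a =
        (fun t : ℝ => t ^ (n - 1) * H t) a.1 := by
      intro a
      have ha : 0 < a.1 := a.2
      rw [NNReal.smul_def, Real.coe_toNNReal _ (by positivity), hh, smul_eq_mul]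
    simp_rw [e]
    rw [integral_subtype_comap measurableSet_Ioi (fun t : ℝ => t ^ (n - 1) * H t)]

end Pool.Agent.W174.SN
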