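import Pool.Agent.W174.SN.Euler

namespace Pool.Agent.W174.SN

open MeasureTheory Set Filter Topology Metric
open scoped ENNReal InnerProductSpace ContDiff
open Pool.Agent.W780.SN

/-- The weight. -/
noncomputable def W (ρ t : ℝ) : ℝ := ρ * (Real.arctan (t / ρ) + Real.pi / 2)

theorem W_hasDeriv {ρ : ℝ} (hρ : 0 < ρ) (t : ℝ) :
    HasDerivAt (W ρ) (1 / (1 + (t / ρ) ^ 2)) t := by
  have h1 : HasDerivAt (fun t : ℝ => t / ρ) (1 / ρ) t := (hasDerivAt_id t).div_const ρ
  have h2 := ((Real.hasDerivAt_arctan (t / ρ)).comp t h1).add_const (Real.pi / 2)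
  have h3 := h2.const_mul ρ
  convert! h3 using 1
  field_simp

theorem W_pos {ρ : ℝ} (hρ : 0 < ρ) (t : ℝ) : 0 < W ρ t :=
  mul_pos hρ (by linarith [Real.neg_pi_div_two_lt_arctan (t / ρ)])

theorem W_le {ρ : ℝ} (hρ : 0 < ρ) (t : ℝ) : W ρ t ≤ Real.pi * ρ := by
  unfold W
  rw [mul_comm]
  exact mul_le_mul_of_nonneg_right (by linarith [Real.arctan_lt_pi_div_two (t / ρ)]) hρ.le

theorem W_contDiff (ρ : ℝ) : ContDiff ℝ ∞ (W ρ) := by
  unfold W
  exact contDiff_const.mul ((Real.contDiff_arctan.comp (contDiff_id.div_const ρ)).add contDiff_const)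

theorem cs {n : ℕ} {f g : EuclideanSpace ℝ (Fin n) → ℝ} (hf : Continuous f)
    (hf' : HasCompactSupport f) (hg : Continuous g) (hg' : HasCompactSupport g) :
    ∫ x, |f x| * |g x| ≤ Real.sqrt (∫ x, f x ^ 2) * Real.sqrt (∫ x, g x ^ 2) := by
  have h := integral_mul_le_Lp_mul_Lq_of_nonneg (μ := (volume : Measure (EuclideanSpace ℝ (Fin n))))
    (p := 2) (q := 2) (by exact Real.HolderConjugate.two_two)
    (f := fun x => |f x|) (g := fun x => |g x|)
    (Eventually.of_forall fun x => abs_nonneg _) (Eventually.of_forall fun x => abs_nonneg _)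
    ?_ ?_
  · refine h.trans (le_of_eq ?_)
    rw [Real.sqrt_eq_rpow, Real.sqrt_eq_rpow]
    congr 2
    · congr 1; funext x
      simp
    · congr 1; funext x
      simp
  · exact hf.abs.memLp_of_hasCompactSupport (hf'.comp_left (g := fun t : ℝ => |t|) (by simp))
  · exact hg.abs.memLp_of_hasCompactSupport (hg'.comp_left (g := fun t : ℝ => |t|) (by simp))

theorem radial : S_Radial := by
  intro n hn y0 g δ R ρ hg hδ hg0 hρ
  let E := EuclideanSpace ℝ (Fin n)
  have hgs : ContDiff ℝ ∞ g := hg.smooth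
  have hgd : Differentiable ℝ g := hgs.differentiable (by simp)
  have hgc : Continuous g := hgs.continuous
  have hdc : Continuous (fun x => fderiv ℝ g x) := hgs.continuous_fderiv (by simp)
  -- near `y0` the function vanishes
  have hev : ∀ x ∈ ball y0 δ, g =ᶠ[𝓝 x] fun _ => 0 := fun x hx =>
    Filter.eventually_of_mem (isOpen_ball.mem_nhds hx) hg0
  have hfd0 : ∀ x ∈ ball y0 δ, fderiv ℝ g x = 0 := by
    intro x hx
    rw [(hev x hx).fderiv_eq]; simp
  have hne : ∀ x, x ∉ ball y0 δ → x - y0 ≠ 0 := by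
    intro x hx h
    rw [sub_eq_zero] at h
    exact hx (h ▸ mem_ball_self hδ)
  let A : E → ℝ := fun x => ⟪gradient g x, x - y0⟫_ℝ / ‖x - y0‖
  have hAdef : ∀ x, A x = fderiv ℝ g x (x - y0) / ‖x - y0‖ := by
    intro x; simp only [A]; rw [inner_grad]
  have hAc : Continuous A := by
    rw [continuous_iff_continuousAt]
    intro x
    by_cases hx : x ∈ ball y0 δ
    · have : A =ᶠ[𝓝 x] fun _ => 0 := by
        filter_upwards [isOpen_ball.mem_nhds hx] with y hy
        rw [hAdef, hfd0 y hy]; simp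
      exact continuousAt_const.congr this.symm
    · have h1 : ContinuousAt (fun x => fderiv ℝ g x (x - y0)) x :=
        (hdc.clm_apply (continuous_id.sub continuous_const)).continuousAt
      have h2 : ContinuousAt (fun x => ‖x - y0‖) x := by fun_prop
      have h3 := h1.div h2 (by simpa using hne x hx)
      have : A = fun x => fderiv ℝ g x (x - y0) / ‖x - y0‖ := funext hAdef
      rw [this]; exact h3
  have hAs : HasCompactSupport A := by
    have h1 : HasCompactSupport (fderiv ℝ g) := hg.compact.fderiv (𝕜 := ℝ)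
    refine h1.mono ?_
    intro x hx
    rw [Function.mem_support] at hx ⊢
    intro h
    apply hx
    rw [hAdef, h]; simp
  let w : E → ℝ := fun x => W ρ (‖x - y0‖ - R)
  let w' : E → ℝ := fun x => 1 / (1 + ((‖x - y0‖ - R) / ρ) ^ 2)
  have hwc : Continuous w := (W_contDiff ρ).continuous.comp (by fun_prop)
  have hw'c : Continuous w' := by
    have : ∀ x : E, 1 + ((‖x - y0‖ - R) / ρ) ^ 2 ≠ 0 := fun x => by positivity
    exact continuous_const.div (by fun_prop) this
  let F : E → ℝ := fun x => g x ^ 2 * (w x / ‖x - y0‖)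
  have hF0 : ∀ x ∈ ball y0 δ, F x = 0 := by
    intro x hx; simp only [F]; rw [hg0 x hx]; simp
  have hFev : ∀ x ∈ ball y0 δ, F =ᶠ[𝓝 x] fun _ => 0 := fun x hx =>
    Filter.eventually_of_mem (isOpen_ball.mem_nhds hx) hF0
  have hFcd : ContDiff ℝ 1 F := by
    rw [contDiff_iff_contDiffAt]
    intro x
    by_cases hx : x ∈ ball y0 δ
    · exact contDiffAt_const.congr_of_eventuallyEq (hFev x hx)
    · have h0 := hne x hx
      have h1 : ContDiffAt ℝ 1 (fun x => ‖x - y0‖) x :=
        (contDiffAt_id.sub contDiffAt_const).norm ℝ h0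
      have h2 : ContDiffAt ℝ 1 w x :=
        ((W_contDiff ρ).of_le (by simp)).contDiffAt.comp x (h1.sub contDiffAt_const)
      have h3 : ContDiffAt ℝ 1 (fun x => g x ^ 2) x := ((hgs.of_le (by simp)).contDiffAt).pow 2
      exact h3.mul (h2.div h1 (norm_ne_zero_iff.2 h0))
  have hFs : HasCompactSupport F := by
    have h1 : HasCompactSupport (fun x => g x ^ 2) :=
      hg.compact.comp_left (g := fun t : ℝ => t ^ 2) (by simp)
    exact h1.mul_right
  have hkey : ∀ x, ⟪gradient F x, x - y0⟫_ℝ + n * F x =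
      2 * (g x * A x * w x) + g x ^ 2 * w' x + (n - 1) * F x := by
    intro x
    rw [inner_grad]
    by_cases hx : x ∈ ball y0 δ
    · rw [(hFev x hx).fderiv_eq, hF0 x hx, hg0 x hx]; simp
    · have h0 := hne x hx
      have hr : 0 < ‖x - y0‖ := norm_pos_iff.2 h0
      have hFd : HasFDerivAt F (fderiv ℝ F x) x := (hFcd.differentiable one_ne_zero x).hasFDerivAt
      have hline : HasDerivAt (fun s : ℝ => x + s • (x - y0)) (x - y0) 0 := by
        have := ((hasDerivAt_id (0:ℝ)).smul_const (x - y0)).const_add x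
        rw [one_smul] at this
        exact this
      have h1 : HasDerivAt (fun s : ℝ => F (x + s • (x - y0))) (fderiv ℝ F x (x - y0)) 0 := by
        have hFd' : HasFDerivAt F (fderiv ℝ F x) (x + (0:ℝ) • (x - y0)) := by simpa using hFd
        exact hFd'.comp_hasDerivAt (0:ℝ) hline
      have h2 : HasDerivAt (fun s : ℝ => g (x + s • (x - y0))) (fderiv ℝ g x (x - y0)) 0 := by
        have hgd' : HasFDerivAt g (fderiv ℝ g x) (x + (0:ℝ) • (x - y0)) := by
          simpa using (hgd x).hasFDerivAt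
        exact hgd'.comp_hasDerivAt (0:ℝ) hline
      have h3 : HasDerivAt (fun s : ℝ => (1 + s) * ‖x - y0‖) ‖x - y0‖ 0 := by
        simpa using ((hasDerivAt_id (0:ℝ)).const_add 1).mul_const ‖x - y0‖
      have h4 : HasDerivAt (fun s : ℝ => W ρ ((1 + s) * ‖x - y0‖ - R)) (w' x * ‖x - y0‖) 0 := by
        have hW : HasDerivAt (W ρ) (w' x) ((1 + (0:ℝ)) * ‖x - y0‖ - R) := by
          have e0 : (1 + (0:ℝ)) * ‖x - y0‖ - R = ‖x - y0‖ - R := by ring
          rw [e0]
          exact W_hasDeriv hρ (‖x - y0‖ - R)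
        exact HasDerivAt.comp (h₂ := W ρ) (h := fun s : ℝ => (1 + s) * ‖x - y0‖ - R) (0:ℝ) hW
          (h3.sub_const R)
      have h5 := (h2.pow 2).mul (h4.div h3 (by rw [add_zero, one_mul]; exact hr.ne'))
      have heq : (fun s : ℝ => F (x + s • (x - y0))) =ᶠ[𝓝 0]
          ((fun s : ℝ => g (x + s • (x - y0))) ^ 2 *
            ((fun s : ℝ => W ρ ((1 + s) * ‖x - y0‖ - R)) / (fun s : ℝ => (1 + s) * ‖x - y0‖))) := by
        have : ∀ᶠ s : ℝ in 𝓝 0, -1 < s := lt_mem_nhds (by norm_num)
        filter_upwards [this] with s hs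
        have hn : ‖x + s • (x - y0) - y0‖ = (1 + s) * ‖x - y0‖ := by
          have : x + s • (x - y0) - y0 = (1 + s) • (x - y0) := by
            rw [add_smul, one_smul]; abel
          rw [this, norm_smul, Real.norm_of_nonneg (by linarith)]
        simp only [F, w, hn, Pi.mul_apply, Pi.pow_apply, Pi.div_apply]
      have h6 := h5.congr_of_eventuallyEq heq
      rw [h1.unique h6]
      simp only [zero_smul, add_zero, one_mul, Pi.mul_apply, Pi.pow_apply, Pi.div_apply]
      rw [hAdef]
      simp only [F, w]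
      field_simp
      ring
  have hE := euler n y0 F hFcd hFs
  simp_rw [hkey] at hE
  have hFi : Integrable F := hFcd.continuous.integrable_of_hasCompactSupport hFs
  have i1 : Integrable (fun x => g x * A x * w x) :=
    ((hgc.mul hAc).mul hwc).integrable_of_hasCompactSupport ((hg.compact.mul_right).mul_right)
  have hg2 : HasCompactSupport (fun x => g x ^ 2) :=
      hg.compact.comp_left (g := fun t : ℝ => t ^ 2) (by simp)
  have i2 : Integrable (fun x => g x ^ 2 * w' x) :=
    ((hgc.pow 2).mul hw'c).integrable_of_hasCompactSupport (hg2.mul_right)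
  have hFnn : 0 ≤ ∫ x, F x := integral_nonneg fun x => by
    have := W_pos hρ (‖x - y0‖ - R)
    exact mul_nonneg (sq_nonneg _) (div_nonneg this.le (norm_nonneg _))
  have i12 : Integrable (fun x => 2 * (g x * A x * w x) + g x ^ 2 * w' x) := (i1.const_mul 2).add i2
  rw [integral_add i12 (hFi.const_mul _), integral_add (i1.const_mul 2) i2,
    integral_const_mul, integral_const_mul] at hE
  have hn1 : (1:ℝ) ≤ n := by exact_mod_cast hn
  have b1 : ∫ x, g x ^ 2 * w' x ≤ 2 * |∫ x, g x * A x * w x| := by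
    have := neg_abs_le (∫ x, g x * A x * w x)
    nlinarith [mul_nonneg (sub_nonneg.2 hn1) hFnn]
  have b2 : |∫ x, g x * A x * w x| ≤ ∫ x, Real.pi * ρ * (|g x| * |A x|) := by
    refine (abs_integral_le_integral_abs).trans ?_
    refine integral_mono i1.abs ?_ ?_
    · refine Integrable.const_mul ?_ _
      exact (hgc.abs.mul hAc.abs).integrable_of_hasCompactSupport
        ((hg.compact.comp_left (g := fun t : ℝ => |t|) (by simp)).mul_right)
    · intro x
      show |g x * A x * w x| ≤ Real.pi * ρ * (|g x| * |A x|)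
      rw [abs_mul, abs_mul, abs_of_pos (W_pos hρ _ : 0 < w x), mul_comm]
      exact mul_le_mul_of_nonneg_right (W_le hρ _) (by positivity)
  rw [integral_const_mul] at b2
  have b3 := cs hgc hg.compact hAc hAs
  have b4 : ∫ x in {x | |‖x - y0‖ - R| < ρ}, g x ^ 2 ≤ 2 * ∫ x, g x ^ 2 * w' x := by
    have hS : MeasurableSet {x : E | |‖x - y0‖ - R| < ρ} := by
      apply measurableSet_lt <;> fun_prop
    have i3 : Integrable (fun x => 2 * (g x ^ 2 * w' x)) := i2.const_mul 2
    have i4 : Integrable (fun x => g x ^ 2) := (hgc.pow 2).integrable_of_hasCompactSupport hg2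
    calc ∫ x in {x | |‖x - y0‖ - R| < ρ}, g x ^ 2
        ≤ ∫ x in {x | |‖x - y0‖ - R| < ρ}, 2 * (g x ^ 2 * w' x) := by
          refine setIntegral_mono_on i4.integrableOn i3.integrableOn hS ?_
          intro x hx
          have hx' : |‖x - y0‖ - R| < ρ := hx
          have h1 : ((‖x - y0‖ - R) / ρ) ^ 2 ≤ 1 := by
            rw [div_pow, div_le_one (by positivity), ← sq_abs]
            exact pow_le_pow_left₀ (abs_nonneg _) hx'.le 2
          have h2 : (1:ℝ) / 2 ≤ w' x := by
            simp only [w']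
            apply one_div_le_one_div_of_le (by positivity)
            linarith
          nlinarith [sq_nonneg (g x)]
      _ ≤ ∫ x, 2 * (g x ^ 2 * w' x) := by
          refine setIntegral_le_integral i3 (Eventually.of_forall fun x => ?_)
          have : 0 ≤ w' x := by simp only [w']; positivity
          show 0 ≤ 2 * (g x ^ 2 * w' x)
          positivity
      _ = 2 * ∫ x, g x ^ 2 * w' x := integral_const_mul _ _
  have hpi : 0 ≤ Real.pi * ρ := by positivity
  have b5 := mul_le_mul_of_nonneg_left b3 hpi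
  calc ∫ x in {x | |‖x - y0‖ - R| < ρ}, g x ^ 2 ≤ 2 * ∫ x, g x ^ 2 * w' x := b4
    _ ≤ 2 * (2 * (Real.pi * ρ * (Real.sqrt (∫ x, g x ^ 2) * Real.sqrt (∫ x, A x ^ 2)))) := by
        linarith
    _ = _ := by simp only [A]; ring

end Pool.Agent.W174.SN
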