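import Pool.Agent.W780.SN.Stm

namespace Pool.Agent.W174.SN

open MeasureTheory Set Filter Topology Metric
open scoped ENNReal InnerProductSpace ContDiff
open Pool.Agent.W780.SN

theorem pointwise {n : ℕ} {φ : EuclideanSpace ℝ (Fin n) → ℝ} (hφ : ContDiff ℝ ∞ φ)
    (x z : EuclideanSpace ℝ (Fin n)) :
    (φ (x + z) - φ x) ^ 2 ≤ ∫ t in Ioc (0:ℝ) 1, ‖z‖ ^ 2 * ‖gradient φ (x + t • z)‖ ^ 2 := by
  have hd : Differentiable ℝ φ := hφ.differentiable (by simp)
  have hdc : Continuous (fun x => fderiv ℝ φ x) := hφ.continuous_fderiv (by simp)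
  have hgc : Continuous (gradient φ) := by
    have : gradient φ = fun x => (InnerProductSpace.toDual ℝ (EuclideanSpace ℝ (Fin n))).symm
        (fderiv ℝ φ x) := rfl
    rw [this]
    exact (LinearIsometryEquiv.continuous _).comp hdc
  have hder : ∀ t : ℝ, HasDerivAt (fun t : ℝ => φ (x + t • z)) (fderiv ℝ φ (x + t • z) z) t := by
    intro t
    have h1 : HasDerivAt (fun t : ℝ => x + t • z) z t := by
      simpa using ((hasDerivAt_id t).smul_const z).const_add x
    exact ((hd (x + t • z)).hasFDerivAt.comp_hasDerivAt t h1)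
  have hcont : Continuous (fun t : ℝ => fderiv ℝ φ (x + t • z) z) := by
    have : Continuous (fun t : ℝ => x + t • z) := by fun_prop
    exact (hdc.comp this).clm_apply continuous_const
  have hftc := intervalIntegral.integral_eq_sub_of_hasDerivAt (a := 0) (b := 1)
    (f := fun t : ℝ => φ (x + t • z)) (f' := fun t : ℝ => fderiv ℝ φ (x + t • z) z)
    (fun t _ => hder t) (hcont.intervalIntegrable _ _)
  have e : φ (x + z) - φ x = ∫ t in Ioc (0:ℝ) 1, fderiv ℝ φ (x + t • z) z := by
    rw [← intervalIntegral.integral_of_le zero_le_one, hftc]; simp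
  have hic : ∀ f : ℝ → ℝ, Continuous f → IntegrableOn f (Ioc (0:ℝ) 1) := fun f hf =>
    (hf.integrableOn_Icc).mono_set Ioc_subset_Icc_self
  haveI : IsProbabilityMeasure (volume.restrict (Ioc (0:ℝ) 1)) := ⟨by simp⟩
  have hj : (∫ t in Ioc (0:ℝ) 1, fderiv ℝ φ (x + t • z) z) ^ 2 ≤
      ∫ t in Ioc (0:ℝ) 1, (fderiv ℝ φ (x + t • z) z) ^ 2 := by
    have := (Even.convexOn_pow (𝕜 := ℝ) (n := 2) even_two).map_integral_le
      (μ := volume.restrict (Ioc (0:ℝ) 1)) (f := fun t : ℝ => fderiv ℝ φ (x + t • z) z)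
      (by fun_prop) isClosed_univ (by simp) (hic _ hcont) (hic _ (hcont.pow 2))
    simpa using this
  rw [e]
  refine hj.trans ?_
  refine integral_mono (hic _ (hcont.pow 2)) (hic _ ?_) ?_
  · have : Continuous (fun t : ℝ => x + t • z) := by fun_prop
    exact continuous_const.mul ((hgc.comp this).norm.pow 2)
  · intro t
    have h1 : fderiv ℝ φ (x + t • z) z = ⟪gradient φ (x + t • z), z⟫_ℝ := by simp [gradient]
    have h2 := abs_real_inner_le_norm (gradient φ (x + t • z)) z
    show (fderiv ℝ φ (x + t • z) z) ^ 2 ≤ ‖z‖ ^ 2 * ‖gradient φ (x + t • z)‖ ^ 2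
    rw [h1, ← sq_abs, ← mul_pow]
    exact pow_le_pow_left₀ (abs_nonneg _) (by rw [mul_comm]; exact h2) 2

theorem trans : S_Trans := by
  intro n φ hφ z
  have hdc : Continuous (fun x => fderiv ℝ φ x) := hφ.smooth.continuous_fderiv (by simp)
  have hgc : Continuous (gradient φ) := by
    have : gradient φ = fun x => (InnerProductSpace.toDual ℝ (EuclideanSpace ℝ (Fin n))).symm
        (fderiv ℝ φ x) := rfl
    rw [this]
    exact (LinearIsometryEquiv.continuous _).comp hdc
  have hgs : HasCompactSupport (gradient φ) := by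
    have h1 : HasCompactSupport (fderiv ℝ φ) := hφ.compact.fderiv (𝕜 := ℝ)
    exact h1.comp_left (g := fun L => (InnerProductSpace.toDual ℝ
      (EuclideanSpace ℝ (Fin n))).symm L) (by simp)
  let g : EuclideanSpace ℝ (Fin n) → ℝ := fun y => ‖z‖ ^ 2 * ‖gradient φ y‖ ^ 2
  have hg : Continuous g := continuous_const.mul (hgc.norm.pow 2)
  have hgi : Integrable g := by
    refine (hg.integrable_of_hasCompactSupport ?_)
    have : HasCompactSupport (fun y => ‖gradient φ y‖ ^ 2) :=
      hgs.comp_left (g := fun w : EuclideanSpace ℝ (Fin n) => ‖w‖ ^ 2) (by simp)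
    exact this.mul_left
  have hg0 : ∀ y, 0 ≤ g y := fun y => by positivity
  have hgio : ∀ x, IntegrableOn (fun t : ℝ => g (x + t • z)) (Ioc (0:ℝ) 1) := by
    intro x
    have : Continuous (fun t : ℝ => g (x + t • z)) := hg.comp (by fun_prop)
    exact (this.integrableOn_Icc).mono_set Ioc_subset_Icc_self
  have hpt : ∀ x, ENNReal.ofReal ((φ (x + z) - φ x) ^ 2) ≤
      ∫⁻ t in Ioc (0:ℝ) 1, ENNReal.ofReal (g (x + t • z)) := by
    intro x
    rw [← ofReal_integral_eq_lintegral_ofReal (hgio x) (Eventually.of_forall fun t => hg0 _)]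
    exact ENNReal.ofReal_le_ofReal (pointwise hφ.smooth x z)
  have hmeas : Measurable (fun p : EuclideanSpace ℝ (Fin n) × ℝ =>
      ENNReal.ofReal (g (p.1 + p.2 • z))) := by
    apply ENNReal.measurable_ofReal.comp
    exact (hg.comp (by fun_prop)).measurable
  have htot : ∫⁻ x, ENNReal.ofReal ((φ (x + z) - φ x) ^ 2) ≤ ∫⁻ x, ENNReal.ofReal (g x) := by
    calc ∫⁻ x, ENNReal.ofReal ((φ (x + z) - φ x) ^ 2)
        ≤ ∫⁻ x, ∫⁻ t in Ioc (0:ℝ) 1, ENNReal.ofReal (g (x + t • z)) := lintegral_mono hpt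
      _ = ∫⁻ t in Ioc (0:ℝ) 1, ∫⁻ x, ENNReal.ofReal (g (x + t • z)) :=
          lintegral_lintegral_swap hmeas.aemeasurable
      _ = ∫⁻ t in Ioc (0:ℝ) 1, ∫⁻ x, ENNReal.ofReal (g x) := by
          congr 1; funext t
          exact lintegral_add_right_eq_self (fun x => ENNReal.ofReal (g x)) (t • z)
      _ = ∫⁻ x, ENNReal.ofReal (g x) := by simp
  have hRHS : ‖z‖ ^ 2 * ∫ x, ‖gradient φ x‖ ^ 2 = ∫ x, g x := (integral_const_mul _ _).symm
  rw [hRHS]
  rw [integral_eq_lintegral_of_nonneg_ae (Eventually.of_forall fun x => sq_nonneg _),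
    integral_eq_lintegral_of_nonneg_ae (Eventually.of_forall hg0) hg.aestronglyMeasurable]
  · refine ENNReal.toReal_mono ?_ htot
    rw [← ofReal_integral_eq_lintegral_ofReal hgi (Eventually.of_forall hg0)]
    exact ENNReal.ofReal_ne_top
  · have hc : Continuous φ := hφ.smooth.continuous
    have : Continuous (fun x => (φ (x + z) - φ x) ^ 2) := by fun_prop
    exact this.aestronglyMeasurable

end Pool.Agent.W174.SN
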